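import Pool.Agent.H16.STR.Tpf

/-!
# The heights of `u` are full

`few_nx`: the natural digits of a position given the exact positions below and the record.
`okt_jet`: the heights over the labels `OkT` are the quantities of the class theorems. `imU_of`: the
images `ImU`.
-/

set_option autoImplicit false

namespace Pool.STR79

open Finset Real MvPolynomial
open Pool.Agent.H49.Ent Pool.Agent.H32.Dense
open Pool.STK hiding pr2
open Pool.KA Pool.KSAT Pool.K2S Pool.PB Pool.S6C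
open Pool.GEN Pool.CHT Pool.CHX Pool.ISO Pool.LA91 Pool.AVG71 Pool.AVG5 Pool.D2F2 Pool.AVG57
open Pool.RCD Pool.AVG96 Pool.OWN68 Pool.V0F Pool.V0Q Pool.V0T
open Pool.UNJ (ceI)
open Pool.GRD (LbP)
open Pool.STR16 (OkT ImU hT)

variable {m : ℕ} {S : PCl m} {c : ℕ → Fin m} {k : ℕ} {sn : ℕ → ℝ → ℝ} {G : Set ℝ} {b o φ : ℝ}

/-- **The natural digits of a position** given the exact positions below and the record. -/
theorem few_nx {α γ : ∀ J : ℕ, Fam m J → Type} {f : ∀ (J : ℕ) (F : Fam m J), F.Ω → α J F}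
    {y : ∀ (J : ℕ) (F : Fam m J), F.Ω → γ J F} {C₀ : ℝ} (htm : TmC S C₀)
    (hpos : ∀ (τ : ℝ) (J : ℕ) (F : Fam m J) (A : F.Ω → Prop), S.St τ J F A → 0 < Pe F.p A)
    (hf : ∀ (J : ℕ) (F : Fam m J), ∃ χ : α J F → PtT F, ∀ ω, ptr F J ω = χ (f J F ω))
    {r i : ℕ} {s rd : ℕ → ℝ} {w u₁ N : ℝ} (hy : KnX c i y) (hch : Chn S c 0 r w w u₁ s rd)
    (hi : i < r) (hN0 : 0 ≤ N) (hN : N ≤ s i) : Few0 S f (vg w) y (qXd m (c i) N) := by
  have hs1 := (hch.s0 i (Nat.zero_le _) hi).2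
  have hx : Exs S (qLg m ((range i).image c) (c i) w (s i) (rd i) 0 N) :=
    exs_lg le_rfl ((hch.att i (Nat.zero_le _) hi).attG hch.u0.le le_rfl)
  refine few_tQt hpos (Few.trans hpos hx ?_ (few_lg_xd hpos hf hy hch.u0.le
    (hch.r1 i (Nat.zero_le _) hi) le_rfl hN0 (by linarith)))
  refine FewC.few (FewC.post hpos (Q' := qJet m ((range i).image c) (c i) 0 w (s i) N)
    (fun x : ℤ => x) (fun K e J F A u hu => ⟨qLg_jet hu, fun _ _ _ _ h => h⟩) ?_)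
  refine (Few0.few hpos (few0_jet htm hch.w0 hch.u0 ?_ _ _ _)).fewC
  push_cast
  linarith

/-- **The heights over the labels** `OkT` are the quantities of the class theorems. -/
theorem okt_jet (m D k : ℕ) (N : ℝ) : ∃ M J₁ : ℕ, ∀ K ≥ M, ∀ J ≥ J₁, ∀ {F : Fam m J}
    {c : ℕ → Fin m} {a φ ρ₀ : ℝ} {e₀ : ℕ → ℝ} {sn : ℕ → ℝ → ℝ} {A : F.Ω → Prop}
    {H : LnT F → ℕ → MvPolynomial (Option (Fin m)) ℝ}, OkT F c k D a φ e₀ ρ₀ sn A H →
    ∀ e : ℝ, 0 ≤ e → (qJet m ((range k).image c) (c k) 0 a (sn k a - φ) N).P K e J F A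
      (fun ω => ⌊(2 : ℝ) ^ (N * J) * hT c k ⌊a * J⌋₊ H ω 0⌋) := by
  obtain ⟨M₁, hM₁⟩ : ∃ M₁ : ℕ, M₁ = ⌈|N| * Real.log 2 + Real.log 5⌉₊ := ⟨_, rfl⟩
  have hM₁' : |N| * Real.log 2 + Real.log 5 ≤ M₁ := by
    rw [hM₁]
    exact Nat.le_ceil _
  refine ⟨max D M₁, 1, fun K hK J hJ F c a φ e₀ ρ₀ sn A H hO e he => ?_⟩
  have hJ1 : (1 : ℝ) ≤ J := by exact_mod_cast hJ
  have hJ0 : (0 : ℝ) ≤ J := by linarith
  obtain ⟨V, z, z', G, hlb, hG⟩ := hO k le_rfl (Nat.le_succ k)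
  have hl2 : 0 < Real.log 2 := Real.log_pos one_lt_two
  have hl5 : 0 ≤ Real.log 5 := Real.log_nonneg (by norm_num)
  have hKD : D ≤ K := (le_max_left _ _).trans hK
  have hKM : (M₁ : ℝ) ≤ K := by exact_mod_cast (le_max_right D M₁).trans hK
  have e0 : ∀ ω, hT c k ⌊a * J⌋₊ H ω 0 =
      F.x ω (c k) - eval (bt F ω) (G (z' (slam F ⌊a * J⌋₊ ω))) := by
    intro ω
    have h1 : hT c k ⌊a * J⌋₊ H ω 0 = ojet F (c k) 0 (H (slam F ⌊a * J⌋₊ ω) k) ω := rfl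
    rw [h1, Pool.LA91.ojet_zero, hG]
  have hb : (1 : ℝ) ≤ 2 ^ (|N| * J) := by
    rw [← exp_p2]
    exact Real.one_le_exp (by positivity)
  refine ⟨?_, V, z, z', G, (LbP.of hlb).mono (Finset.Subset.refl _) hKD
    (Nat.floor_le_floor (mul_le_mul_of_nonneg_right (by linarith) hJ0)), fun ω _ => ?_⟩
  · have h1 := cnt_le_of_abs (p := F.p)
      (u := fun ω => ⌊(2 : ℝ) ^ (N * J) * hT c k ⌊a * J⌋₊ H ω 0⌋) (A := A)
      (B := 2 * 2 ^ (|N| * J)) (by positivity) (by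
        intro ω hω
        have h2 := hlb.pos ω hω
        have h3 : |hT c k ⌊a * J⌋₊ H ω 0| ≤ 1 := by
          rw [e0]
          refine h2.trans ?_
          rw [div_le_one (by positivity)]
          exact one_le_pow₀ (by norm_num)
        obtain ⟨t, ht⟩ : ∃ t, t = hT c k ⌊a * J⌋₊ H ω 0 := ⟨_, rfl⟩
        rw [← ht] at h3 ⊢
        have h4 : |(2 : ℝ) ^ (N * J) * t| ≤ 2 ^ (|N| * J) := by
          rw [abs_mul, abs_of_pos (by positivity)]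
          calc (2 : ℝ) ^ (N * J) * |t| ≤ 2 ^ (N * J) * 1 :=
                mul_le_mul_of_nonneg_left h3 (by positivity)
            _ ≤ 2 ^ (|N| * J) := by
                rw [mul_one]
                exact Real.rpow_le_rpow_of_exponent_le (by norm_num)
                  (mul_le_mul_of_nonneg_right (le_abs_self N) hJ0)
        have h5 := Int.floor_le ((2 : ℝ) ^ (N * J) * t)
        have h6 := Int.lt_floor_add_one ((2 : ℝ) ^ (N * J) * t)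
        have h7 := abs_le.1 h4
        rw [abs_le]
        constructor <;> linarith [h7.1, h7.2])
    refine h1.trans ?_
    have h2 : 2 * (2 * (2 : ℝ) ^ (|N| * J)) + 1 ≤ 5 * 2 ^ (|N| * J) := by linarith
    refine h2.trans ?_
    rw [← exp_p2]
    calc 5 * Real.exp (|N| * J * Real.log 2)
        = Real.exp (Real.log 5 + |N| * J * Real.log 2) := by
          rw [Real.exp_add, Real.exp_log (by norm_num)]
      _ ≤ Real.exp (K * J) := by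
          refine Real.exp_le_exp.2 ?_
          have h3 := mul_le_mul_of_nonneg_right (hM₁'.trans hKM) hJ0
          have h4 := mul_le_mul_of_nonneg_left hJ1 hl5
          nlinarith
  · have h1 : hT c k ⌊a * J⌋₊ H ω 0 = ojet F (c k) 0 (H (slam F ⌊a * J⌋₊ ω) k) ω := rfl
    simp only [h1, hG]

/-- The entropies of the image. -/
theorem imu_ent {Ω : Type} [Fintype Ω] {q : Ω → ℝ} (h0 : ∀ ω, 0 ≤ q ω) {Δ T₁ T₂ : Type}
    {uP uv XP Xn XJ : Ω → ℤ} {H : Ω → T₁} {C : Ω → T₂} {Y : Ω → Δ} {a fl dJ β : ℝ}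
    (hH : ∀ ω ω', 0 < q ω → 0 < q ω' → C ω = C ω' → H ω = H ω')
    (hβ : CH q Y (fun ω => (uv ω, (H ω, C ω))) ≤ β)
    (a1 : CH q XP (fun ω => (uP ω, C ω)) ≤ a)
    (a2 : CH q XJ (fun ω => (XP ω, (uP ω, (uv ω, C ω)))) ≤ dJ)
    (a3 : CH q uv (fun ω => (Xn ω, C ω)) ≤ a) (a4 : CH q Xn C ≤ a) (a5 : fl ≤ CH q XJ C) :
    fl - dJ - 3 * a - β ≤ CH q uP Y := by
  have s1 : CH q uP (fun ω => (Y ω, (uv ω, (H ω, C ω)))) ≤ CH q uP Y :=
    CH_mono_cond h0 fun ω ω' _ _ e => (Prod.ext_iff.mp e).1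
  have s2 := Pool.OWN68.CH_exch h0 uP Y (fun ω => (uv ω, (H ω, C ω)))
  have s3 := CH_nonneg h0 Y (fun ω => (uP ω, (uv ω, (H ω, C ω))))
  have s4 : CH q uP (fun ω => (uv ω, C ω)) ≤ CH q uP (fun ω => (uv ω, (H ω, C ω))) :=
    CH_mono_cond h0 fun ω ω' hω hω' e => by
      simp only [Prod.mk.injEq] at e ⊢
      exact ⟨e.1, hH ω ω' hω hω' e.2, e.2⟩
  have s5 := CH_le_add h0 XJ uP (fun ω => (uv ω, C ω))
  have s6 := CH_le_add h0 XJ XP (fun ω => (uP ω, (uv ω, C ω)))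
  have s7 : CH q XP (fun ω => (uP ω, (uv ω, C ω))) ≤ CH q XP (fun ω => (uP ω, C ω)) :=
    CH_mono_cond h0 fun ω ω' _ _ e => by
      simp only [Prod.mk.injEq] at e ⊢
      exact ⟨e.1, e.2.2⟩
  have s8 := CH_le_add h0 XJ uv C
  have s9 := CH_le_add h0 uv Xn C
  linarith

/-- **The heights of `u` are full** between the level of a later window `v` and `P`. -/
theorem imU_of (k : ℕ) : ∃ C : ℝ, 1 ≤ C ∧ ∀ {m D : ℕ} {S : PCl m} {c : ℕ → Fin m}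
    {sn : ℕ → ℝ → ℝ} {G : Set ℝ} {b o φ' φ : ℝ}, LadT S c k 1 sn G b o φ' → φ' ≤ φ →
    ∀ {a v P ρ₀ κ ϖ : ℝ} {e₀ : ℕ → ℝ}, a ∈ G → v ∈ G → a ≤ v → P ≤ 1 →
    P + C * φ ≤ sn k a + (1 - a) → (∀ l < k, P + C * φ ≤ sn k a + (1 - sn l a)) → 0 < κ → 0 < ϖ →
    ImU S c k D a φ e₀ ρ₀ sn ϖ v P κ := by
  refine ⟨20 * ((k : ℝ) + 2), by
    have : (0 : ℝ) ≤ k := Nat.cast_nonneg k
    linarith, ?_⟩
  intro m D S c sn G b o φ' φ L' hφ' a v P ρ₀ κ ϖ e₀ ha hv hav hP1 hPa hPl hκ hϖ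
  have L := Pool.STR16.ladT_wk L' hφ'
  have hφ := L.φ0
  have hl2 : 0 < Real.log 2 := Real.log_pos one_lt_two
  have hl1 : Real.log 2 ≤ 1 := by
    have := Real.log_two_lt_d9
    linarith
  obtain ⟨u₁, rd, -, hch⟩ := L.ch.ch v hv
  have hv1 : v ≤ 1 := hch.u0.le
  obtain ⟨hs0, hs1⟩ := hch.s0 k (Nat.zero_le _) (Nat.lt_succ_self k)
  rcases le_or_gt P (sn k v) with hPv | hPv
  · -- nothing to prove
    refine Bas.mono 0 (Pool.STAT.NL.Bas.frac (pos_bas L.pos) hϖ) ?_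
    rintro J - F A hB0 H hO B hBA hBP Δ Y β hβ
    have h0 := (isLaw_cond F.isLaw (hB0 B hBA hBP)).nonneg
    have h1 := (CH_nonneg h0 _ _).trans hβ
    have h2 := CH_nonneg h0 (fun ω => ⌊(2 : ℝ) ^ (P * J) * hT c k ⌊a * J⌋₊ H ω 0⌋) Y
    have hJ0 : (0 : ℝ) ≤ J := Nat.cast_nonneg J
    have h3 : ((P - sn k v) * Real.log 2 - κ) * J ≤ 0 := by
      refine mul_nonpos_of_nonpos_of_nonneg ?_ hJ0
      have := mul_nonpos_of_nonpos_of_nonneg (sub_nonpos.2 hPv) hl2.le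
      linarith
    linarith
  have hP0 : 0 ≤ P := hs0.trans hPv.le
  obtain ⟨ρ, hρ⟩ : ∃ ρ : ℝ, ρ = κ / 6 := ⟨_, rfl⟩
  have hρ0 : 0 < ρ := by rw [hρ]; positivity
  have e20 : 20 * (((k + 1 : ℕ) : ℝ) + 1) * φ = 20 * ((k : ℝ) + 2) * φ := by
    push_cast
    ring
  -- heights and positions
  have hexj : ∀ N : ℝ, 0 ≤ N → N ≤ P → ∃ κ : ℝ, 0 < κ ∧ ∃ e : ℝ, 0 < e ∧
      ∀ K : ℕ, Bas S (fun J F A => ∀ (V : Type) (z : F.Ω → V),
      Mx (fun J F => ptr F J) (vg a) κ F A z → ∀ u,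
      (qJet m ((range k).image c) (c k) 0 a (sn k a - φ) N).P K e J F A u →
      CH (Pool.Agent.H49.Ent.cond F.p A True) u (fun ω => (F.X ⌊N * J⌋₊ ω (c k),
        (ceI ((range k).image c) (fun _ => J) (F.x ω), (z ω, F.W ω)))) ≤ ρ * J ∧
      CH (Pool.Agent.H49.Ent.cond F.p A True) (fun ω => F.X ⌊N * J⌋₊ ω (c k)) (fun ω =>
        (u ω, (ceI ((range k).image c) (fun _ => J) (F.x ω), (z ω, F.W ω)))) ≤ ρ * J) := by
    intro N hN0 hNP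
    exact exj_base (L.toLadR.one ha) (i := k) (w := a) (pr := sn k a - φ) (N := N)
      (Nat.lt_succ_self k) (Set.mem_singleton a) le_rfl hN0 (hNP.trans hP1)
      (by rw [e20]; linarith) (fun l hl => by rw [e20]; linarith [hPl l hl]) ρ hρ0
  obtain ⟨κ₁, hκ₁, e₁, he₁, H₁⟩ := hexj P hP0 le_rfl
  obtain ⟨κ₂, hκ₂, e₂, he₂, H₂⟩ := hexj (sn k v) hs0 hPv.le
  -- natural digits of the position
  obtain ⟨C₀, htm⟩ := L.tm
  obtain ⟨y, hy⟩ : ∃ y : ∀ (J : ℕ) (F : Fam m J), F.Ω → (Fin m → ℤ) × _, y = fun J F ω =>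
    (ceI ((range k).image c) (fun _ => J) (F.x ω), F.W ω) := ⟨_, rfl⟩
  have hf : ∀ (J : ℕ) (F : Fam m J), ∃ χ : PtT F → PtT F, ∀ ω, ptr F J ω = χ (ptr F J ω) :=
    fun J F => ⟨fun x => x, fun _ => rfl⟩
  have hTk : Kn ((range 0).image c) 1 1 y := by
    intro J F
    obtain ⟨χ, hχ⟩ := kn_W (c := c) J F
    exact ⟨fun x => χ x.2, fun ω => by rw [hy]; exact hχ ω⟩
  have hX : KnX c k y := by
    refine ⟨fun J F => ?_, fun J F => ⟨fun x l => x.1 (c l), fun ω l hl => ?_⟩⟩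
    · obtain ⟨χ, hχ⟩ := hTk J F
      exact ⟨fun x => (χ x).1, fun ω => (congrArg Prod.fst (hχ ω)).symm⟩
    · rw [hy]
      have h1 : c l ∈ (range k).image c := mem_image_of_mem _ (mem_range.2 hl)
      simp only [ceI, if_pos h1]
      rfl
  obtain ⟨e₃, he₃, H₃⟩ := (few_nx (f := fun J F => ptr F J) htm L.pos hf hX hch
    (Nat.lt_succ_self k) hs0 le_rfl).mx L.pos ρ hρ0
  obtain ⟨M₁, J₁, hM₁⟩ := okt_jet m D k P
  obtain ⟨M₂, J₂, hM₂⟩ := okt_jet m D k (sn k v)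
  obtain ⟨M, hM⟩ : ∃ M : ℕ, M = M₁ + M₂ := ⟨_, rfl⟩
  obtain ⟨J₃, hJ₃⟩ := exists_nat_ge (1 / ρ)
  refine Bas.mono (J₁ + J₂ + J₃) (Pool.STAT.NL.Bas.frac (((((H₁ M).and (H₂ M)).and (H₃ M)).and
    (hch.ful ρ hρ0)).and (pos_bas L.pos)) hϖ) ?_
  rintro J hJ F A H' H hO B hBA hBP Δ Y β hβ
  obtain ⟨⟨⟨⟨H₁, H₂⟩, H₃⟩, H₄⟩, hB0⟩ := H' B hBA hBP
  have hJ0 : (0 : ℝ) ≤ J := Nat.cast_nonneg J
  have h1J : 1 ≤ ρ * J := by
    have h2 : (J₃ : ℝ) ≤ J := by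
      have : J₃ ≤ J := by omega
      exact_mod_cast this
    have := hJ₃.trans h2
    rw [div_le_iff₀ hρ0] at this
    linarith
  have p1 := (qJet m _ _ _ _ _ _).sub hBA (hM₁ M (by omega) J (by omega) hO e₁ he₁.le)
  have p2 := (qJet m _ _ _ _ _ _).sub hBA (hM₂ M (by omega) J (by omega) hO e₂ he₂.le)
  have a1 := (H₁ _ (cR F B a) (mx_cR hB0 a hκ₁.le) _ p1).2
  have a3 := (H₂ _ (cR F B a) (mx_cR hB0 a hκ₂.le) _ p2).1
  have a4 := H₃ _ (cR F B v) (mx_cR hB0 v (by linarith)) (fun ω => F.X ⌊sn k v * J⌋₊ ω (c k))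
    (fun ω _ => rfl)
  obtain ⟨⟨ψp, hψp⟩, ψ, hψ⟩ := (mx_cR hB0 v (le_refl (0 : ℝ))).1
  have a5 := H₄ _ ψp (fun s => ψ s) (fun ω hω => by
    rw [← hψp ω hω]
    exact hψ ω hω) k (Nat.zero_le _) (Nat.lt_succ_self k)
  have hl := isLaw_cond F.isLaw hB0
  have h0 := hl.nonneg
  have hqB : ∀ ω, 0 < Pool.Agent.H49.Ent.cond F.p B True ω → B ω := fun ω hω => of_cond_pos hω
  obtain ⟨q', hq'⟩ : ∃ q' : F.Ω → ℝ, q' = Pool.Agent.H49.Ent.cond F.p B True := ⟨_, rfl⟩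
  rw [← hq'] at a1 a3 a4 a5 hβ hl h0 hqB ⊢
  have key := imu_ent (q := q') h0 (uP := fun ω => ⌊(2 : ℝ) ^ (P * J) * hT c k ⌊a * J⌋₊ H ω 0⌋)
    (XP := fun ω => F.X ⌊P * J⌋₊ ω (c k))
    (Xn := fun ω => F.X ⌊sn k v * J⌋₊ ω (c k)) (XJ := fun ω => F.X J ω (c k))
    (C := fun ω => (cR F B v ω, (ceI ((range k).image c) (fun _ => J) (F.x ω), F.W ω)))
    (a := ρ * J) (fl := ((1 - sn k v) - ρ) * Real.log 2 * J)
    (dJ := ((J : ℝ) - ⌊P * J⌋₊) * Real.log 2) ?_ hβ ?_ ?_ ?_ ?_ ?_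
  · refine le_trans ?_ key
    have e1 := Nat.lt_floor_add_one (P * (J : ℝ))
    have e2 : ((J : ℝ) - ⌊P * J⌋₊) * Real.log 2 ≤ ((1 - P) * J + 1) * Real.log 2 :=
      mul_le_mul_of_nonneg_right (by linarith) hl2.le
    have e3 : ρ * Real.log 2 * J ≤ ρ * J := by
      have := mul_le_mul_of_nonneg_left hl1 (mul_nonneg hρ0.le hJ0)
      linarith
    have e4 : κ * J = 6 * (ρ * J) := by
      rw [hρ]
      ring
    have e5 : 0 ≤ ρ * J := by positivity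
    have e6 : ((P - sn k v) * Real.log 2 - κ) * J =
        ((1 - sn k v) - ρ) * Real.log 2 * J - (1 - P) * J * Real.log 2 +
          ρ * Real.log 2 * J - 6 * (ρ * J) := by
      rw [← e4]
      ring
    rw [e6]
    have e7 : ((1 - P) * J + 1) * Real.log 2 = (1 - P) * J * Real.log 2 + Real.log 2 := by ring
    linarith
  · intro ω ω' hω hω' e
    obtain ⟨V, z, z', G', hlb, hG⟩ := hO k le_rfl (Nat.le_succ k)
    have e1 := (Prod.ext_iff.mp e).1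
    have e2 := Pool.T4J.cR_cd hav hv1 (fun ω hω => hlb.cls ω (hBA ω hω)) e1
    show H (slam F ⌊a * J⌋₊ ω) k = H (slam F ⌊a * J⌋₊ ω') k
    rw [← hG, ← hG, e2]
  · refine le_trans (CH_mono_cond h0 fun ω ω' hω hω' e => ?_) a1
    simp only [Prod.mk.injEq] at e ⊢
    exact ⟨e.1, e.2.2.1, Pool.T4J.cR_mn hav hv1 e.2.1, e.2.2.2⟩
  · exact X_more hl (floor_le hP1 J) (c k) _
  · refine le_trans (CH_mono_cond h0 fun ω ω' hω hω' e => ?_) a3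
    simp only [Prod.mk.injEq] at e ⊢
    exact ⟨e.1, e.2.2.1, Pool.T4J.cR_mn hav hv1 e.2.1, e.2.2.2⟩
  · rw [hy] at a4
    exact a4
  · refine a5.trans (CH_mono_cond h0 fun ω ω' hω hω' e => ?_)
    simp only [Prod.mk.injEq] at e ⊢
    refine ⟨?_, ceI_tup le_rfl fun l hl => congrFun e.1 ⟨l, hl⟩, e.2.2⟩
    rw [hψ ω (hqB ω hω), hψ ω' (hqB ω' hω')]
    exact e.2.1

end Pool.STR79
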